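import Pool.Agent.V11257.NSA

/-!
# Monads need not be convex for nonstandard divisibility

Take two ultrafilters `F ≠ G` on the positive integers that contain every set `{n | a ∣ n}`.  Then
`F`-almost all `c` are multiples of any given `b`, and the same holds for `G`, so that the tensor
product `F ⊗ G ⊗ F` is carried by the triples with `a ∣ b ∣ c`.
-/

set_option autoImplicit false

namespace Pool.Agent.Results.MP_0a3202_lc.MonadNotConvex

open Pool.Agent.V11257.NSA Filter FirstOrder FirstOrder.Language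

universe u

/-- A subset of the nonstandard extension is convex for the extension of divisibility. -/
def Convex {B : Type} [Dvd B] {X : Type u} [(full B).Structure X] (S : Set X) : Prop :=
  ∀ x ∈ S, ∀ y ∈ S, ∀ z : X, starRel (B := B) (· ∣ ·) x z → starRel (B := B) (· ∣ ·) z y → z ∈ S

theorem exists_F (T : Set ℕ+) (hT : ∀ a : ℕ+, ∃ n ∈ T, a ∣ n) :
    ∃ F : Ultrafilter ℕ+, T ∈ F ∧ ∀ a : ℕ+, {n | a ∣ n} ∈ F := by
  let f : ℕ+ → Filter ℕ+ := fun a => 𝓟 (T ∩ {n | a ∣ n})
  have hdir : Directed (· ≥ ·) f := by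
    intro a b
    refine ⟨a * b, ?_, ?_⟩
    · simp only [f, ge_iff_le, le_principal_iff, mem_principal]
      rintro n ⟨h1, h2⟩
      exact ⟨h1, (dvd_mul_right a b).trans h2⟩
    · simp only [f, ge_iff_le, le_principal_iff, mem_principal]
      rintro n ⟨h1, h2⟩
      exact ⟨h1, (dvd_mul_left b a).trans h2⟩
  have hne : (⨅ a, f a).NeBot := by
    refine iInf_neBot_of_directed' hdir fun a => ?_
    obtain ⟨n, h1, h2⟩ := hT a
    exact principal_neBot_iff.2 ⟨n, h1, h2⟩
  refine ⟨Ultrafilter.of (⨅ a, f a), ?_, fun a => ?_⟩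
  · have h1 : T ∩ {n | (1 : ℕ+) ∣ n} ∈ (⨅ a, f a) := mem_iInf_of_mem 1 (mem_principal_self _)
    exact mem_of_superset (Ultrafilter.of_le _ h1) Set.inter_subset_left
  · have h1 : T ∩ {n | a ∣ n} ∈ (⨅ a, f a) := mem_iInf_of_mem a (mem_principal_self _)
    exact mem_of_superset (Ultrafilter.of_le _ h1) Set.inter_subset_right

theorem exists_FG : ∃ F G : Ultrafilter ℕ+, F ≠ G ∧ (∀ a : ℕ+, {n | a ∣ n} ∈ F) ∧
    ∀ a : ℕ+, {n | a ∣ n} ∈ G := by
  obtain ⟨F, hF1, hF2⟩ := exists_F {n | ∃ k : ℕ+, n = k ^ 2} fun a =>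
    ⟨a ^ 2, ⟨a, rfl⟩, dvd_pow_self a two_ne_zero⟩
  obtain ⟨G, hG1, hG2⟩ := exists_F {n | ∃ k : ℕ+, n = 2 * k ^ 2} fun a =>
    ⟨2 * a ^ 2, ⟨a, rfl⟩, (dvd_pow_self a two_ne_zero).mul_left 2⟩
  refine ⟨F, G, ?_, hF2, hG2⟩
  rintro rfl
  obtain ⟨n, ⟨k, hk⟩, ⟨l, hl⟩⟩ := F.nonempty_of_mem (inter_mem hF1 hG1)
  have h1 : (k : ℕ) ^ 2 = 2 * (l : ℕ) ^ 2 := by
    have : k ^ 2 = 2 * l ^ 2 := hk.symm.trans hl
    exact_mod_cast congrArg PNat.val this
  have h2 : ((k : ℕ) ^ 2).factorization 2 = (2 * (l : ℕ) ^ 2).factorization 2 := by rw [h1]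
  rw [Nat.factorization_mul two_ne_zero (pow_ne_zero 2 l.ne_zero), Nat.factorization_pow,
    Nat.factorization_pow] at h2
  simp only [Finsupp.smul_apply, Finsupp.add_apply, smul_eq_mul,
    Nat.Prime.factorization_self Nat.prime_two] at h2
  omega

/-- The tensor product `F ⊗ G ⊗ F`. -/
def tens {B : Type} (F G : Ultrafilter B) : Ultrafilter (B × B × B) :=
  F.bind fun a => G.bind fun b => F.map fun c => (a, b, c)

theorem mem_tens {B : Type} {F G : Ultrafilter B} {A : Set (B × B × B)} :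
    A ∈ tens F G ↔ ∀ᶠ a in (F : Filter B), ∀ᶠ b in (G : Filter B), ∀ᶠ c in (F : Filter B),
      (a, b, c) ∈ A := Iff.rfl

theorem tens_1 {B : Type} (F G : Ultrafilter B) : (tens F G).map (fun t => t.1) = F := by
  ext A
  change (fun t : B × B × B => t.1) ⁻¹' A ∈ tens F G ↔ A ∈ F
  rw [mem_tens]
  simp only [Set.mem_preimage, eventually_const]
  exact Iff.rfl

theorem tens_2 {B : Type} (F G : Ultrafilter B) : (tens F G).map (fun t => t.2.1) = G := by
  ext A
  change (fun t : B × B × B => t.2.1) ⁻¹' A ∈ tens F G ↔ A ∈ G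
  rw [mem_tens]
  simp only [Set.mem_preimage, eventually_const]
  exact Iff.rfl

theorem tens_3 {B : Type} (F G : Ultrafilter B) : (tens F G).map (fun t => t.2.2) = F := by
  ext A
  change (fun t : B × B × B => t.2.2) ⁻¹' A ∈ tens F G ↔ A ∈ F
  rw [mem_tens]
  simp only [Set.mem_preimage, eventually_const]
  exact Iff.rfl

theorem not_convex {B : Type} [Dvd B] {X : Type u} [(full B).Structure X] (h : IsExt B X)
    (e : B ≃ B × B × B) (hmon : ∀ F : Ultrafilter B, (monad X F).Nonempty)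
    (F G : Ultrafilter B) (hFG : F ≠ G)
    (hF : ∀ᶠ a in (F : Filter B), ∀ᶠ b in (G : Filter B), a ∣ b)
    (hG : ∀ᶠ a in (G : Filter B), ∀ᶠ b in (F : Filter B), a ∣ b) :
    ¬ Convex (B := B) (monad X F) := by
  obtain ⟨x, z, y, hx, hz, hy, hxz, hzy, -, -⟩ := exists_triple h e hmon (tens F G)
  rw [tens_1] at hx
  rw [tens_2] at hz
  rw [tens_3] at hy
  intro hconv
  have h1 : starRel (B := B) (· ∣ ·) x z := by
    refine hxz _ ?_
    rw [mem_tens]
    filter_upwards [hF] with a ha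
    filter_upwards [ha] with b hb
    exact Eventually.of_forall fun c => hb
  have h2 : starRel (B := B) (· ∣ ·) z y := by
    refine hzy _ ?_
    rw [mem_tens]
    exact Eventually.of_forall fun a => hG
  have h3 := hconv x hx y hy z h1 h2
  have h4 := vv_of_mem_monad h h3
  have h5 := vv_of_mem_monad h hz
  apply hFG
  ext A
  have : A ∈ vv B z ↔ A ∈ F := by rw [h4]; exact Iff.rfl
  rw [← this, h5]
  exact Iff.rfl

/-- In every nonstandard extension of the positive integers, or of the natural numbers, in which all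
monads are nonempty, some monad is not convex; and there are such extensions. -/
theorem result :
    (∀ (X : Type u) [(full ℕ+).Structure X], IsExt ℕ+ X →
      (∀ F : Ultrafilter ℕ+, (monad X F).Nonempty) →
      ∃ F : Ultrafilter ℕ+, ¬ Convex (B := ℕ+) (monad X F)) ∧
    (∀ (X : Type u) [(full ℕ).Structure X], IsExt ℕ X →
      (∀ F : Ultrafilter ℕ, (monad X F).Nonempty) →
      ∃ F : Ultrafilter ℕ, ¬ Convex (B := ℕ) (monad X F)) ∧
    (∃ (X : Type) (_ : (full ℕ+).Structure X), IsExt ℕ+ X ∧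
      ∀ F : Ultrafilter ℕ+, (monad X F).Nonempty) ∧
    (∃ (X : Type) (_ : (full ℕ).Structure X), IsExt ℕ X ∧
      ∀ F : Ultrafilter ℕ, (monad X F).Nonempty) := by
  obtain ⟨F, G, hne, hF, hG⟩ := exists_FG
  refine ⟨?_, ?_, exists_ext ℕ+, exists_ext ℕ⟩
  · intro X _ h hmon
    obtain ⟨e⟩ : Nonempty (ℕ+ ≃ ℕ+ × ℕ+ × ℕ+) := nonempty_equiv_of_countable
    exact ⟨F, not_convex h e hmon F G hne (Eventually.of_forall fun a => hG a)
      (Eventually.of_forall fun a => hF a)⟩
  · intro X _ h hmon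
    obtain ⟨e⟩ : Nonempty (ℕ ≃ ℕ × ℕ × ℕ) := nonempty_equiv_of_countable
    let c : ℕ+ → ℕ := fun n => n
    refine ⟨F.map c, not_convex h e hmon (F.map c) (G.map c) ?_ ?_ ?_⟩
    · intro heq
      apply hne
      ext A
      have h1 : A = c ⁻¹' (c '' A) := (Set.preimage_image_eq A PNat.coe_injective).symm
      have h2 : c '' A ∈ F.map c ↔ c '' A ∈ G.map c := by rw [heq]
      have h3 : c ⁻¹' (c '' A) ∈ F ↔ c ⁻¹' (c '' A) ∈ G := h2
      rw [← h1] at h3
      exact h3
    · change ∀ᶠ a in (F : Filter ℕ+), ∀ᶠ b in (G : Filter ℕ+), c a ∣ c b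
      exact Eventually.of_forall fun a => by
        filter_upwards [hG a] with b hb
        exact PNat.dvd_iff.1 hb
    · change ∀ᶠ a in (G : Filter ℕ+), ∀ᶠ b in (F : Filter ℕ+), c a ∣ c b
      exact Eventually.of_forall fun a => by
        filter_upwards [hF a] with b hb
        exact PNat.dvd_iff.1 hb

end Pool.Agent.Results.MP_0a3202_lc.MonadNotConvex
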